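import Mathlib
import Pool.Agent.Y586.SR.Dim

/-!
# Stably regular operators which are not absolutely summing, for every measure
-/

set_option autoImplicit false

open MeasureTheory
open scoped ENNReal

universe u

namespace Pool.Agent.Results.MP_119be6_an.EveryMeasure

open Pool.Agent.Y586.SR

/-- Lebesgue measure on `[0,1]`. -/
noncomputable def lebI : Measure ℝ := volume.restrict (Set.Icc 0 1)

/-- A sequence of disjoint subintervals of `[0,1]`. -/
noncomputable def sysI : Pool.Agent.Helper630.Stable.Sys lebI ℕ where
  G n := Set.Ioc (1 / ((n : ℝ) + 2)) (1 / ((n : ℝ) + 1))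
  meas n := measurableSet_Ioc
  disj k l h := by
    wlog hkl : k < l generalizing k l
    · exact (this l k h.symm (by omega)).symm
    rw [Set.disjoint_left]
    intro x hx hx'
    have h1 : 1 / ((l : ℝ) + 1) ≤ 1 / ((k : ℝ) + 2) := by
      apply one_div_le_one_div_of_le (by positivity)
      have : (k : ℝ) + 1 ≤ l := by exact_mod_cast hkl
      linarith
    have h2 := hx.1
    have h3 := hx'.2
    linarith
  fin n := by
    unfold lebI
    exact measure_ne_top _ _
  pos n := by
    have h1 : Set.Ioc (1 / ((n : ℝ) + 2)) (1 / ((n : ℝ) + 1)) ⊆ Set.Icc 0 1 := by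
      intro x hx
      refine ⟨?_, ?_⟩
      · have : (0 : ℝ) < 1 / ((n : ℝ) + 2) := by positivity
        linarith [hx.1]
      · refine hx.2.trans ?_
        rw [div_le_one (by positivity)]
        linarith [(Nat.cast_nonneg n : (0 : ℝ) ≤ n)]
    have h2 : 1 / ((n : ℝ) + 2) < 1 / ((n : ℝ) + 1) := by
      apply one_div_lt_one_div_of_lt (by positivity)
      linarith
    unfold lebI
    rw [Measure.restrict_apply measurableSet_Ioc, Set.inter_eq_left.mpr h1, Real.volume_Ioc,
      ENNReal.toReal_ofReal (by linarith)]
    linarith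

/-- The points, as a system of sets for the counting measure of `ℕ`. -/
noncomputable def sysN : Pool.Agent.Helper630.Stable.Sys (Measure.count : Measure ℕ) ℕ where
  G n := {n}
  meas n := measurableSet_singleton n
  disj k l h := by
    rw [Set.disjoint_singleton]
    exact h
  fin n := by
    rw [Measure.count_singleton]
    exact ENNReal.one_ne_top
  pos n := by
    rw [Measure.count_singleton, ENNReal.toReal_one]
    exact zero_lt_one

/-- Let `2 < p < ∞` and let `q = p'` be the conjugate exponent. (1) For every measure `μ` for which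
`L^p(μ)` is infinite dimensional there is a stably regular operator `L^p(μ) → L^{p'}(μ)` that is
not `p'`-absolutely summing. In particular this holds (2) for Lebesgue measure on `[0,1]`, which is
the question, and (3) for the counting measure of `ℕ`, i.e. for operators `ℓ^p → ℓ^{p'}`; hence (4)
it is not true for any `p` in `(2,∞)` that the two classes of operators on `L^p[0,1]` coincide. -/
theorem result (p q : ℝ≥0∞) [Fact (1 ≤ p)] [Fact (1 ≤ q)] (hp2 : 2 < p) (hp : p < ∞)
    (hpq : p⁻¹ + q⁻¹ = 1) :
    (∀ (Ω : Type u) [MeasurableSpace Ω] (μ : Measure Ω), ¬ FiniteDimensional ℝ (LS p μ) →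
      ∃ U : Op p q μ, StablyRegular U ∧ ¬ AbsSumming q.toReal q U) ∧
    (∃ U : Op p q lebI, StablyRegular U ∧ ¬ AbsSumming q.toReal q U) ∧
    (∃ U : Op p q (Measure.count : Measure ℕ), StablyRegular U ∧ ¬ AbsSumming q.toReal q U) ∧
    {U : Op p q lebI | StablyRegular U} ≠ {U : Op p q lebI | AbsSumming q.toReal q U} := by
  have h2 := exists_stable hp2 hp hpq sysI
  refine ⟨fun Ω _ μ h => ?_, h2, exists_stable hp2 hp hpq sysN, fun h => ?_⟩
  · obtain ⟨s⟩ := exists_sys hp.ne h
    exact exists_stable hp2 hp hpq s
  · obtain ⟨U, hU1, hU2⟩ := h2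
    have hU : U ∈ {U : Op p q lebI | StablyRegular U} := hU1
    rw [h] at hU
    exact hU2 hU

end Pool.Agent.Results.MP_119be6_an.EveryMeasure
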